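import Mathlib
import Pool.Agent.Lib.helper23.FBA

set_option autoImplicit false

namespace Pool.Agent.Results.MP_8a6196_an.Main

open Pool.Agent.Lib.helper23.FB

theorem ptw (a b : ℝ) : |b| ≤ 5 / 6 * (|4 / 5 * a + 3 / 5 * b| + |4 / 5 * a - 3 / 5 * b|) -
    4 / 3 * |max (|a| - |b|) 0| := by
  rw [abs_of_nonneg (le_max_right (|a| - |b|) 0)]
  have h1 := abs_le.1 (le_refl |4 / 5 * a + 3 / 5 * b|)
  have h2 := abs_le.1 (le_refl |4 / 5 * a - 3 / 5 * b|)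
  rcases abs_cases a with h | h <;> rcases abs_cases b with h' | h' <;>
    rcases max_cases (|a| - |b|) 0 with k | k <;> linarith [h1.1, h1.2, h2.1, h2.2]

theorem one {E : Type} [NormedAddCommGroup E] [NormedSpace ℝ E] (u w : E) (hu : ‖u‖ ≤ 1)
    (h1 : ‖(4 / 5 : ℝ) • u + (3 / 5 : ℝ) • w‖ ≤ 1) (h2 : ‖(4 / 5 : ℝ) • u - (3 / 5 : ℝ) • w‖ ≤ 1)
    (h3 : ∃ x : StrongDual ℝ E, ‖x‖ ≤ 1 ∧ x u = 1 ∧ x w = 0) :
    ∃ f : FBL E, ∀ y : FBL E, ‖y‖ = 1 → (1 - 1 / 1000) * (‖f‖ + |1|) ≤ ‖f + (1 : ℝ) • y‖ →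
      ∃ (m : ℕ) (x : Fin m → StrongDual ℝ E), ∑ i, |x i u| ≤ 1 ∧ ∑ i, |x i w| ≤ 34 / 100 ∧
        997 / 1000 ≤ ∑ i, |y.1.1 (x i)| := by
  let f : FBL E := mk _ ((((Gen.delta u).abs).sub (Gen.delta w).abs).sup Gen.zero)
  have hf : ∀ x, f.1.1 x = max (|x u| - |x w|) 0 := fun x => rfl
  have n1 : ‖f‖ ≤ 1 := norm_le f.1 fun m x hx => le_trans (Finset.sum_le_sum fun i _ => by
    rw [hf, abs_of_nonneg (le_max_right _ _)]
    exact max_le (sub_le_self _ (abs_nonneg _)) (abs_nonneg _)) (hx u hu)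
  have n2 : 1 ≤ ‖f‖ := by
    obtain ⟨x, hx, k1, k2⟩ := h3
    have := abs_le_norm f.1 x
    rw [hf, k1, k2] at this
    norm_num at this
    exact this.trans (mul_le_of_le_one_left (norm_nonneg _) hx)
  refine ⟨f, fun y hy h => ?_⟩
  obtain ⟨m, x, hx, hs⟩ := exists_fam (f + y).1 (ε := 1 / 1000) (by norm_num)
  rw [one_smul, abs_one] at h
  have e1 : ∑ i, |(f + y).1.1 (x i)| ≤ ∑ i, |f.1.1 (x i)| + ∑ i, |y.1.1 (x i)| := by
    rw [← Finset.sum_add_distrib]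
    exact Finset.sum_le_sum fun i _ => abs_add_le _ _
  have e2 : ∑ i, |f.1.1 (x i)| ≤ 1 * ‖f‖ := sum_le f.1 x one_pos hx
  have e3 : ∑ i, |y.1.1 (x i)| ≤ 1 * ‖y‖ := sum_le y.1 x one_pos hx
  have e4 : ‖f + y‖ = ‖(f + y).1‖ := rfl
  have e5 := Finset.sum_le_sum fun i (_ : i ∈ Finset.univ) => ptw (x i u) (x i w)
  have e6 := hx _ h1
  have e7 := hx _ h2
  simp only [map_add, map_sub, map_smul, smul_eq_mul] at e6 e7
  simp only [← hf, Finset.sum_sub_distrib, ← Finset.mul_sum, Finset.sum_add_distrib] at e5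
  exact ⟨m, x, hx u hu, by linarith, by linarith⟩

theorem result : ¬ Octahedral (FBL (EuclideanSpace ℝ (Fin 2))) := by
  intro h
  let u : EuclideanSpace ℝ (Fin 2) := EuclideanSpace.single 0 1
  let w : EuclideanSpace ℝ (Fin 2) := EuclideanSpace.single 1 1
  have nrm : ∀ v : EuclideanSpace ℝ (Fin 2), ‖v‖ ≤ 1 ↔ v 0 ^ 2 + v 1 ^ 2 ≤ 1 := fun v => by
    rw [EuclideanSpace.norm_eq, Real.sqrt_le_left zero_le_one]
    simp
  have pr : ∀ i : Fin 2, ‖(EuclideanSpace.proj i : StrongDual ℝ (EuclideanSpace ℝ (Fin 2)))‖ ≤ 1 :=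
    fun i => ContinuousLinearMap.opNorm_le_bound _ zero_le_one fun v => by
      simpa using PiLp.norm_apply_le v i
  obtain ⟨f, hf⟩ := one u w (by simp [u]) (by rw [nrm]; simp [u, w]; norm_num)
    (by rw [nrm]; simp [u, w]; norm_num) ⟨_, pr 0, by simp [u], by simp [w]⟩
  obtain ⟨g, hg⟩ := one w u (by simp [w]) (by rw [nrm]; simp [u, w]; norm_num)
    (by rw [nrm]; simp [u, w]; norm_num) ⟨_, pr 1, by simp [w], by simp [u]⟩
  obtain ⟨y, hy, H⟩ := h (Submodule.span ℝ {f, g})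
    (FiniteDimensional.span_of_finite ℝ (Set.toFinite _)) (1 / 1000) (by norm_num)
  obtain ⟨m, x, a1, a2, a3⟩ := hf y hy (H f (Submodule.subset_span (by simp)) 1)
  obtain ⟨n, z, b1, b2, b3⟩ := hg y hy (H g (Submodule.subset_span (by simp)) 1)
  have key := sum_le y.1 (Sum.elim x z) (c := 134 / 100 * (10 / 7)) (by norm_num) fun v hv => by
    have hv' : v = v 0 • u + v 1 • w := by
      ext i
      fin_cases i <;> simp [u, w]
    have k : ∀ t : StrongDual ℝ (EuclideanSpace ℝ (Fin 2)),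
        |t v| ≤ |v 0| * |t u| + |v 1| * |t w| := fun t => by
      conv_lhs => rw [hv']
      simpa [abs_mul] using abs_add_le (v 0 * t u) (v 1 * t w)
    refine (Finset.sum_le_sum fun i _ => k _).trans ?_
    rw [nrm, ← sq_abs, ← sq_abs (v 1)] at hv
    simp only [Finset.sum_add_distrib, ← Finset.mul_sum, Fintype.sum_sum_type, Sum.elim_inl,
      Sum.elim_inr]
    have p0 := abs_nonneg (v 0)
    have p1 := abs_nonneg (v 1)
    have : |v 0| + |v 1| ≤ 10 / 7 := by nlinarith [sq_nonneg (|v 0| - |v 1|)]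
    nlinarith
  simp only [Fintype.sum_sum_type, Sum.elim_inl, Sum.elim_inr] at key
  have : ‖y.1‖ = 1 := hy
  rw [this] at key
  linarith

end Pool.Agent.Results.MP_8a6196_an.Main
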